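import Pool.Agent.H10.BL.Stmts

/-!
# BL, row LPH: the linear programme for a set of exponents at least five
-/

set_option autoImplicit false

namespace Pool.BL

theorem phi_cases37 (x g : ℝ) : Phi x g = x ∨ Phi x g = 3 * x / 2 - g / 4 ∨
    Phi x g = 2 * x - 3 * g / 4 := by
  unfold Phi
  rcases max_choice x (max (3 * x / 2 - g / 4) (2 * x - 3 * g / 4)) with h | h
  · exact Or.inl h
  · rcases max_choice (3 * x / 2 - g / 4) (2 * x - 3 * g / 4) with h' | h'
    · exact Or.inr (Or.inl (h.trans h'))
    · exact Or.inr (Or.inr (h.trans h'))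

theorem lph_thm : S_LPH := by
  intro x xj xk k g hx hj hk hs h1 h2 h3 hk1 hk2 hg
  rcases phi_cases37 xj g with a | a | a <;> rcases phi_cases37 xk g with b | b | b <;>
    rw [a, b] <;> linarith only [hx, hj, hk, hs, h1, h2, h3, hk1, hk2, hg]

end Pool.BL
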